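import Pool.Agent.CB.Stm2

/-!
# Project CB, piece D-CNN (helper73)

The simplices of dimension `j ≤ n - 4` of the dual of the hypersimplex are connected through those of
dimension `j + 1`.
-/

set_option autoImplicit false
namespace Pool.Agent.CB
open Finset Module

namespace DCNN

/-- the hypothesis in a form symmetric in the two parts -/
structure Hyp {n : ℕ} (a b s : ℕ) (F : Finset (Fin n) → Finset (Fin n) → ℚ) : Prop where
  h1 : ∀ A B, Disjoint A B → A.card ≤ a → B.card ≤ b → A.card + B.card = s + 1 →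
    ∀ x ∈ A, ∀ y ∈ A, F (A.erase x) B = F (A.erase y) B
  h2 : ∀ A B, Disjoint A B → A.card ≤ a → B.card ≤ b → A.card + B.card = s + 1 →
    ∀ x ∈ A, ∀ y ∈ B, F (A.erase x) B = F A (B.erase y)
  h3 : ∀ A B, Disjoint A B → A.card ≤ a → B.card ≤ b → A.card + B.card = s + 1 →
    ∀ x ∈ B, ∀ y ∈ B, F A (B.erase x) = F A (B.erase y)

theorem Hyp.flip {n a b s : ℕ} {F : Finset (Fin n) → Finset (Fin n) → ℚ} (H : Hyp a b s F) :
    Hyp b a s (fun B A => F A B) where
  h1 := fun B A hd hb ha hc => H.h3 A B hd.symm ha hb (by omega)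
  h2 := fun B A hd hb ha hc x hx y hy => (H.h2 A B hd.symm ha hb (by omega) y hy x hx).symm
  h3 := fun B A hd hb ha hc => H.h1 A B hd.symm ha hb (by omega)

/-- there are free indices -/
theorem free {n : ℕ} (A B : Finset (Fin n)) (x : Fin n) (h : A.card + B.card + 1 < n) :
    ∃ w, w ∉ A ∧ w ∉ B ∧ w ≠ x := by
  have h1 : (insert x (A ∪ B)).card < (univ : Finset (Fin n)).card := by
    have := card_insert_le x (A ∪ B)
    have := card_union_le A B
    rw [card_univ, Fintype.card_fin]
    omega
  obtain ⟨w, -, hw⟩ := exists_mem_notMem_of_card_lt_card h1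
  simp only [mem_insert, mem_union, not_or] at hw
  exact ⟨w, hw.2.1, hw.2.2, hw.1⟩

theorem card_ie {n : ℕ} {A : Finset (Fin n)} {x y : Fin n} (hy : y ∈ A) (hx : x ∉ A) :
    (insert x (A.erase y)).card = A.card := by
  have h0 : 0 < A.card := card_pos.2 ⟨y, hy⟩
  rw [card_insert_of_notMem (fun h => hx (mem_of_mem_erase h)), card_erase_of_mem hy]
  omega

/-- an element of `A` can be replaced by a free one -/
theorem move {n a b s : ℕ} {F : Finset (Fin n) → Finset (Fin n) → ℚ} (H : Hyp a b s F)
    (hs : s < a + b) (hn : s + 1 < n) {A B : Finset (Fin n)} (hd : Disjoint A B)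
    (ha : A.card ≤ a) (hb : B.card ≤ b) (hc : A.card + B.card = s) {x y : Fin n}
    (hy : y ∈ A) (hxA : x ∉ A) (hxB : x ∉ B) : F (insert x (A.erase y)) B = F A B := by
  have hxy : y ≠ x := fun h => hxA (h ▸ hy)
  by_cases h : A.card < a
  · have h1 := H.h1 (insert x A) B (disjoint_insert_left.2 ⟨hxB, hd⟩)
      (by rw [card_insert_of_notMem hxA]; omega) hb (by rw [card_insert_of_notMem hxA]; omega)
      x (mem_insert_self _ _) y (mem_insert_of_mem hy)
    rw [erase_insert hxA, erase_insert_of_ne hxy.symm] at h1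
    exact h1.symm
  · obtain ⟨w, hwA, hwB, hwx⟩ := free A B x (by omega)
    have h1 := H.h2 A (insert w B) (disjoint_insert_right.2 ⟨hwA, hd⟩) ha
      (by rw [card_insert_of_notMem hwB]; omega) (by rw [card_insert_of_notMem hwB]; omega)
      y hy w (mem_insert_self _ _)
    have hd2 : Disjoint (insert x (A.erase y)) (insert w B) := by
      rw [disjoint_insert_left, disjoint_insert_right, mem_insert, not_or]
      exact ⟨⟨hwx.symm, hxB⟩, fun h => hwA (mem_of_mem_erase h), hd.mono_left (erase_subset _ _)⟩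
    have h2 := H.h2 (insert x (A.erase y)) (insert w B) hd2 (by rw [card_ie hy hxA]; omega)
      (by rw [card_insert_of_notMem hwB]; omega)
      (by rw [card_insert_of_notMem hwB, card_ie hy hxA]; omega)
      x (mem_insert_self _ _) w (mem_insert_self _ _)
    rw [erase_insert hwB] at h1 h2
    rw [erase_insert (fun h => hxA (mem_of_mem_erase h))] at h2
    rw [← h2, h1]

/-- an element of `A` and an element of `B` can be exchanged -/
theorem swap {n a b s : ℕ} {F : Finset (Fin n) → Finset (Fin n) → ℚ} (H : Hyp a b s F)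
    (hs : s < a + b) (hn : s + 1 < n) {A B : Finset (Fin n)} (hd : Disjoint A B)
    (ha : A.card ≤ a) (hb : B.card ≤ b) (hc : A.card + B.card = s) {y z : Fin n}
    (hy : y ∈ A) (hz : z ∈ B) : F (insert z (A.erase y)) (insert y (B.erase z)) = F A B := by
  have hyB : y ∉ B := fun h => (disjoint_left.1 hd) hy h
  have hzA : z ∉ A := fun h => (disjoint_left.1 hd) h hz
  obtain ⟨x, hxA, hxB, -⟩ := free A B y (by omega)
  have hxy : x ≠ y := fun h => hxA (h ▸ hy)
  have hxz : x ≠ z := fun h => hxB (h ▸ hz)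
  have hyz : y ≠ z := fun h => hyB (h ▸ hz)
  have h1 := move H hs hn hd ha hb hc hy hxA hxB
  have hyA1 : y ∉ insert x (A.erase y) := by
    rw [mem_insert, not_or]
    exact ⟨hxy.symm, notMem_erase _ _⟩
  have hd1 : Disjoint (insert x (A.erase y)) B :=
    disjoint_insert_left.2 ⟨hxB, hd.mono_left (erase_subset _ _)⟩
  have h2 := move H.flip (by omega) hn hd1.symm hb (by rw [card_ie hy hxA]; omega)
    (by rw [card_ie hy hxA]; omega) hz hyB hyA1
  have hd2 : Disjoint (insert x (A.erase y)) (insert y (B.erase z)) :=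
    disjoint_insert_right.2 ⟨hyA1, hd1.mono_right (erase_subset _ _)⟩
  have hzA1 : z ∉ insert x (A.erase y) := by
    rw [mem_insert, not_or]
    exact ⟨hxz.symm, fun h => hzA (mem_of_mem_erase h)⟩
  have hzB1 : z ∉ insert y (B.erase z) := by
    rw [mem_insert, not_or]
    exact ⟨hyz.symm, notMem_erase _ _⟩
  have h3 := move H hs hn hd2 (by rw [card_ie hy hxA]; omega) (by rw [card_ie hz hyB]; omega)
    (by rw [card_ie hy hxA, card_ie hz hyB]; omega) (mem_insert_self x (A.erase y)) hzA1 hzB1
  rw [erase_insert (fun h => hxA (mem_of_mem_erase h))] at h3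
  exact h3.trans (h2.trans h1)

/-- an element of `A` can be replaced by a free one in `B` -/
theorem change {n a b s : ℕ} {F : Finset (Fin n) → Finset (Fin n) → ℚ} (H : Hyp a b s F)
    {A B : Finset (Fin n)} (hd : Disjoint A B)
    (ha : A.card ≤ a) (hb : B.card < b) (hc : A.card + B.card = s) {x y : Fin n}
    (hy : y ∈ A) (hxA : x ∉ A) (hxB : x ∉ B) : F (A.erase y) (insert x B) = F A B := by
  have h1 := H.h2 A (insert x B) (disjoint_insert_right.2 ⟨hxA, hd⟩) ha
    (by rw [card_insert_of_notMem hxB]; omega) (by rw [card_insert_of_notMem hxB]; omega)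
    y hy x (mem_insert_self _ _)
  rw [erase_insert hxB] at h1
  exact h1

theorem ex_diff {n : ℕ} {A A' : Finset (Fin n)} (hc : A.card = A'.card) {x : Fin n} (hx : x ∈ A')
    (hx' : x ∉ A) : ∃ y ∈ A, y ∉ A' := by
  by_contra h
  push Not at h
  have := eq_of_subset_of_card_le (s := A) (t := A') h (by omega)
  exact hx' (this ▸ hx)

theorem sd_lt {n : ℕ} {A A' : Finset (Fin n)} {x y : Fin n} (hx : x ∈ A')
    (hx' : x ∉ A) (hy : y ∉ A') : (A' \ insert x (A.erase y)).card < (A' \ A).card := by
  apply card_lt_card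
  rw [ssubset_iff_of_subset]
  · refine ⟨x, mem_sdiff.2 ⟨hx, hx'⟩, fun h => (mem_sdiff.1 h).2 (mem_insert_self _ _)⟩
  · intro z hz
    rw [mem_sdiff] at hz ⊢
    refine ⟨hz.1, fun h => hz.2 (mem_insert_of_mem (mem_erase.2 ⟨?_, h⟩))⟩
    rintro rfl
    exact hy hz.1

/-- first stage: the part `A` is made equal to `A'` -/
theorem st1 {n a b s : ℕ} {F : Finset (Fin n) → Finset (Fin n) → ℚ} (H : Hyp a b s F)
    (hs : s < a + b) (hn : s + 1 < n) (A' : Finset (Fin n)) :
    ∀ (m : ℕ) (A B : Finset (Fin n)), (A' \ A).card = m → Disjoint A B → A.card ≤ a → B.card ≤ b →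
      A.card + B.card = s → A.card = A'.card →
      ∃ B1, B1.card = B.card ∧ Disjoint A' B1 ∧ F A' B1 = F A B := by
  intro m
  induction m using Nat.strong_induction_on with
  | _ m ih =>
    intro A B hm hd ha hb hc hA
    by_cases h : A' ⊆ A
    · have := eq_of_subset_of_card_le h (by omega)
      subst this
      exact ⟨B, rfl, hd, rfl⟩
    · obtain ⟨x, hx, hx'⟩ := not_subset.1 h
      obtain ⟨y, hy, hy'⟩ := ex_diff hA hx hx'
      have hlt := sd_lt hx hx' hy'
      by_cases hxB : x ∈ B
      · have hyB : y ∉ B := fun h => (disjoint_left.1 hd) hy h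
        have hxy : x ≠ y := fun h => hx' (h ▸ hy)
        have h1 := swap H hs hn hd ha hb hc hy hxB
        have hd1 : Disjoint (insert x (A.erase y)) (insert y (B.erase x)) := by
          rw [disjoint_insert_left, disjoint_insert_right, mem_insert, not_or]
          exact ⟨⟨hxy, notMem_erase _ _⟩, notMem_erase _ _,
            (hd.mono_left (erase_subset _ _)).mono_right (erase_subset _ _)⟩
        obtain ⟨B1, h2, h3, h4⟩ := ih _ (by omega) (insert x (A.erase y)) (insert y (B.erase x)) rfl
          hd1 (by rw [card_ie hy hx']; omega) (by rw [card_ie hxB hyB]; omega)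
          (by rw [card_ie hy hx', card_ie hxB hyB]; omega) (by rw [card_ie hy hx']; omega)
        exact ⟨B1, by rw [h2, card_ie hxB hyB], h3, h4.trans h1⟩
      · have h1 := move H hs hn hd ha hb hc hy hx' hxB
        have hd1 : Disjoint (insert x (A.erase y)) B :=
          disjoint_insert_left.2 ⟨hxB, hd.mono_left (erase_subset _ _)⟩
        obtain ⟨B1, h2, h3, h4⟩ := ih _ (by omega) (insert x (A.erase y)) B rfl
          hd1 (by rw [card_ie hy hx']; omega) hb
          (by rw [card_ie hy hx']; omega) (by rw [card_ie hy hx']; omega)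
        exact ⟨B1, h2, h3, h4.trans h1⟩

/-- second stage: `A` is fixed -/
theorem st2 {n a b s : ℕ} {F : Finset (Fin n) → Finset (Fin n) → ℚ} (H : Hyp a b s F)
    (hs : s < a + b) (hn : s + 1 < n) (A B' : Finset (Fin n)) (hd' : Disjoint A B') :
    ∀ (m : ℕ) (B : Finset (Fin n)), (B' \ B).card = m → Disjoint A B → A.card ≤ a → B.card ≤ b →
      A.card + B.card = s → B.card = B'.card → F A B = F A B' := by
  intro m
  induction m using Nat.strong_induction_on with
  | _ m ih =>
    intro B hm hd ha hb hc hB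
    by_cases h : B' ⊆ B
    · have := eq_of_subset_of_card_le h (by omega)
      subst this
      rfl
    · obtain ⟨x, hx, hx'⟩ := not_subset.1 h
      obtain ⟨y, hy, hy'⟩ := ex_diff hB hx hx'
      have hlt := sd_lt hx hx' hy'
      have hxA : x ∉ A := fun h => (disjoint_left.1 hd') h hx
      have h1 := move H.flip (by omega) hn hd.symm hb ha (by omega) hy hx' hxA
      have hd1 : Disjoint A (insert x (B.erase y)) :=
        disjoint_insert_right.2 ⟨hxA, hd.mono_right (erase_subset _ _)⟩
      have h2 := ih _ (by omega) (insert x (B.erase y)) rfl hd1 ha (by rw [card_ie hy hx']; omega)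
        (by rw [card_ie hy hx']; omega) (by rw [card_ie hy hx']; omega)
      exact h1.symm.trans h2

/-- third stage: the number of the elements of `A` -/
theorem st3 {n a b s : ℕ} {F : Finset (Fin n) → Finset (Fin n) → ℚ} (H : Hyp a b s F)
    (hs : s < a + b) (hn : s + 1 < n) (A' B' : Finset (Fin n)) (hd' : Disjoint A' B')
    (hb' : B'.card ≤ b) (hc' : A'.card + B'.card = s) :
    ∀ (m : ℕ) (A B : Finset (Fin n)), A.card = A'.card + m → Disjoint A B → A.card ≤ a →
      B.card ≤ b → A.card + B.card = s → F A B = F A' B' := by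
  intro m
  induction m with
  | zero =>
    intro A B hm hd ha hb hc
    obtain ⟨B1, h2, h3, h4⟩ := st1 H hs hn A' _ A B rfl hd ha hb hc (by omega)
    rw [← h4]
    exact st2 H hs hn A' B' hd' _ B1 rfl h3 (by omega) (by omega) (by omega) (by omega)
  | succ m ih =>
    intro A B hm hd ha hb hc
    obtain ⟨y, hy⟩ : A.Nonempty := card_pos.1 (by omega)
    obtain ⟨x, hxA, hxB, -⟩ := free A B y (by omega)
    have h1 := change H hd ha (by omega) hc hy hxA hxB
    rw [← h1]
    have hA1 : (A.erase y).card + 1 = A.card := by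
      rw [card_erase_of_mem hy]
      omega
    refine ih (A.erase y) (insert x B) (by omega) ?_ (by omega) ?_ ?_
    · exact disjoint_insert_right.2 ⟨fun h => hxA (mem_of_mem_erase h),
        hd.mono_left (erase_subset _ _)⟩
    · rw [card_insert_of_notMem hxB]; omega
    · rw [card_insert_of_notMem hxB]; omega

theorem mem_enc {n : ℕ} {A B : Finset (Fin n)} {i : Fin n × Bool} :
    i ∈ enc A B ↔ (i.2 = false ∧ i.1 ∈ A) ∨ (i.2 = true ∧ i.1 ∈ B) := by
  simp [enc]

theorem erase_false {n : ℕ} (A B : Finset (Fin n)) (x : Fin n) :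
    (enc A B).erase (x, false) = enc (A.erase x) B := by
  ext ⟨m, e⟩
  rw [mem_erase, mem_enc, mem_enc]
  cases e <;> simp [Prod.ext_iff]

theorem erase_true {n : ℕ} (A B : Finset (Fin n)) (x : Fin n) :
    (enc A B).erase (x, true) = enc A (B.erase x) := by
  ext ⟨m, e⟩
  rw [mem_erase, mem_enc, mem_enc]
  cases e <;> simp [Prod.ext_iff]

end DCNN

open DCNN in
theorem t_DCNN : S_DCNN := by
  intro n k s hk hkn hs hsn v hv A B A' B' hA hA' hc hc'
  have H : Hyp (n - k - 1) (k - 1) s (fun A B : Finset (Fin n) => v (enc A B)) := by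
    have adm : ∀ A B : Finset (Fin n), Disjoint A B → A.card ≤ n - k - 1 → B.card ≤ k - 1 →
        A.card + B.card = s + 1 → Adm k A B := by
      intro A B hd ha hb hc
      refine ⟨hd, by omega, by omega, ?_⟩
      by_contra h
      rw [not_nonempty_iff_eq_empty, union_eq_empty] at h
      rw [h.1, h.2] at hc
      simp at hc
    refine ⟨fun A B hd ha hb hc x hx y hy => ?_, fun A B hd ha hb hc x hx y hy => ?_,
      fun A B hd ha hb hc x hx y hy => ?_⟩
    · have := hv A B (adm A B hd ha hb hc) hc (x, false) (mem_enc.2 (Or.inl ⟨rfl, hx⟩)) (y, false)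
        (mem_enc.2 (Or.inl ⟨rfl, hy⟩))
      rwa [erase_false, erase_false] at this
    · have := hv A B (adm A B hd ha hb hc) hc (x, false) (mem_enc.2 (Or.inl ⟨rfl, hx⟩)) (y, true)
        (mem_enc.2 (Or.inr ⟨rfl, hy⟩))
      rwa [erase_false, erase_true] at this
    · have := hv A B (adm A B hd ha hb hc) hc (x, true) (mem_enc.2 (Or.inr ⟨rfl, hx⟩)) (y, true)
        (mem_enc.2 (Or.inr ⟨rfl, hy⟩))
      rwa [erase_true, erase_true] at this
  obtain ⟨h1, h2, h3, -⟩ := hA
  obtain ⟨h1', h2', h3', -⟩ := hA'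
  rcases le_total A'.card A.card with h | h
  · obtain ⟨m, hm⟩ := Nat.exists_eq_add_of_le h
    exact st3 H (by omega) (by omega) A' B' h1' (by omega) hc' m A B hm h1 (by omega) (by omega) hc
  · obtain ⟨m, hm⟩ := Nat.exists_eq_add_of_le h
    exact (st3 H (by omega) (by omega) A B h1 (by omega) hc m A' B' hm h1' (by omega) (by omega)
      hc').symm

end Pool.Agent.CB
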