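import Pool.Agent.CB.Stm2

/-!
# Project CB part 2, piece DDIM (helper55): dimensions of the faces
-/

set_option autoImplicit false

namespace Pool.Agent.CB

open Finset Module

namespace DDIMx

section
variable {ι : Type} {d : ℕ} {p : ι → Fin d → ℚ}

theorem lin_mono {T T' : Finset ι} (h : T ⊆ T') : lin p T ≤ lin p T' := by
  refine Submodule.span_mono ?_
  rintro x ⟨i, hi, j, hj, rfl⟩
  exact ⟨i, h hi, j, h hj, rfl⟩

theorem dim_lt {T T' : Finset ι} (hT : IsFace p T) (h : T ⊂ T') : dim p T < dim p T' := by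
  apply Submodule.finrank_lt_finrank_of_lt
  refine lt_of_le_of_ne (lin_mono h.1) fun heq => ?_
  obtain ⟨⟨i₀, hi₀⟩, f, hf⟩ := hT
  have h1 : lin p T ≤ LinearMap.ker f := by
    refine Submodule.span_le.mpr ?_
    rintro x ⟨i, hi, j, hj, rfl⟩
    show f (p i - p j) = 0
    rw [map_sub]
    have h2 := (hf i).mp hi j
    have h3 := (hf j).mp hj i
    linarith
  refine h.2 fun i hi => ?_
  have h2 : p i - p i₀ ∈ lin p T := by
    rw [heq]
    exact Submodule.subset_span ⟨i, hi, i₀, h.1 hi₀, rfl⟩
  have h3 : f (p i - p i₀) = 0 := h1 h2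
  rw [map_sub] at h3
  rw [hf]
  intro j
  have := (hf i₀).mp hi₀ j
  linarith

theorem dim_add_one_le [DecidableEq ι] {T : Finset ι} (hT : T.Nonempty) :
    dim p T + 1 ≤ T.card := by
  obtain ⟨i₀, hi₀⟩ := hT
  have h1 : lin p T ≤ Submodule.span ℚ (((T.erase i₀).image fun i => p i - p i₀ :
      Finset (Fin d → ℚ)) : Set (Fin d → ℚ)) := by
    refine Submodule.span_le.mpr ?_
    have h2 : ∀ i ∈ T, p i - p i₀ ∈ Submodule.span ℚ (((T.erase i₀).image
        fun i => p i - p i₀ : Finset (Fin d → ℚ)) : Set (Fin d → ℚ)) := by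
      intro i hi
      by_cases h : i = i₀
      · rw [h, sub_self]; exact Submodule.zero_mem _
      · exact Submodule.subset_span (by
          rw [Finset.mem_coe, Finset.mem_image]
          exact ⟨i, Finset.mem_erase.mpr ⟨h, hi⟩, rfl⟩)
    rintro x ⟨i, hi, j, hj, rfl⟩
    have h3 : p i - p j = (p i - p i₀) - (p j - p i₀) := by abel
    rw [h3]
    exact Submodule.sub_mem _ (h2 i hi) (h2 j hj)
  have h2 : dim p T ≤ ((T.erase i₀).image fun i => p i - p i₀).card :=
    (Submodule.finrank_mono h1).trans (finrank_span_finset_le_card _)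
  have h3 : ((T.erase i₀).image fun i => p i - p i₀).card ≤ (T.erase i₀).card :=
    Finset.card_image_le
  have h4 := Finset.card_erase_of_mem hi₀
  have h5 : 0 < T.card := Finset.card_pos.mpr ⟨i₀, hi₀⟩
  omega

end

section
variable {n : ℕ}

theorem mem_enc (A B : Finset (Fin n)) (i : Fin n × Bool) :
    i ∈ enc A B ↔ (i.2 = false ∧ i.1 ∈ A) ∨ (i.2 = true ∧ i.1 ∈ B) := by
  unfold enc
  rw [Finset.mem_filter]
  exact ⟨fun h => h.2, fun h => ⟨Finset.mem_univ _, h⟩⟩

theorem enc_mono {A B A' B' : Finset (Fin n)} (h : A ⊆ A') (h' : B ⊆ B') :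
    enc A B ⊆ enc A' B' := by
  intro i hi
  rw [mem_enc] at hi ⊢
  rcases hi with ⟨h1, h2⟩ | ⟨h1, h2⟩
  · exact Or.inl ⟨h1, h h2⟩
  · exact Or.inr ⟨h1, h' h2⟩

theorem card_enc (A B : Finset (Fin n)) : (enc A B).card = A.card + B.card := by
  have h1 : enc A B = A.map ⟨fun m => (m, false), fun a b h => (Prod.ext_iff.mp h).1⟩ ∪
      B.map ⟨fun m => (m, true), fun a b h => (Prod.ext_iff.mp h).1⟩ := by
    ext ⟨m, b⟩
    rw [mem_enc, Finset.mem_union, Finset.mem_map, Finset.mem_map]
    constructor
    · rintro (⟨h1, h2⟩ | ⟨h1, h2⟩)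
      · exact Or.inl ⟨m, h2, Prod.ext rfl h1.symm⟩
      · exact Or.inr ⟨m, h2, Prod.ext rfl h1.symm⟩
    · rintro (⟨m', h1, h3⟩ | ⟨m', h1, h3⟩)
      · obtain ⟨h4, h5⟩ := Prod.ext_iff.mp h3
        have h6 : m' = m := h4
        exact Or.inl ⟨Eq.symm h5, h6 ▸ h1⟩
      · obtain ⟨h4, h5⟩ := Prod.ext_iff.mp h3
        have h6 : m' = m := h4
        exact Or.inr ⟨Eq.symm h5, h6 ▸ h1⟩
  rw [h1, Finset.card_union_of_disjoint, Finset.card_map, Finset.card_map]
  rw [Finset.disjoint_left]
  intro i hi hi'
  rw [Finset.mem_map] at hi hi'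
  obtain ⟨a, -, rfl⟩ := hi
  obtain ⟨b, -, hb⟩ := hi'
  have := (Prod.ext_iff.mp hb).2
  simp at this

theorem enc_ssubset {A B A' B' : Finset (Fin n)} (h : A ⊆ A') (h' : B ⊆ B')
    (hc : A.card + B.card < A'.card + B'.card) : enc A B ⊂ enc A' B' := by
  refine ⟨enc_mono h h', fun h1 => ?_⟩
  have := Finset.card_le_card h1
  rw [card_enc, card_enc] at this
  omega

end

end DDIMx

open DDIMx in
theorem t_DDIM : S_DDIM := by
  intro n k q hDF
  obtain ⟨hk, hkn, hlin, hface⟩ := hDF
  have huniv : dim q univ = n - 1 := by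
    unfold dim
    rw [hlin, finrank_top, Module.finrank_fintype_fun_eq_card, Fintype.card_fin]
  have hadmF : ∀ A B : Finset (Fin n), Adm k A B → IsFace q (enc A B) := fun A B h =>
    (hface _).mpr (Or.inr (Or.inl ⟨A, B, h, rfl⟩))
  have hlow : ∀ N : ℕ, ∀ A B : Finset (Fin n), Adm k A B → A.card + B.card = N →
      N ≤ dim q (enc A B) + 1 := by
    intro N
    induction N with
    | zero => intro A B _ _; omega
    | succ N ih =>
      intro A B hAB hN
      rcases Nat.eq_zero_or_pos N with h0 | h0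
      · omega
      obtain ⟨h1, h2, h3, h4⟩ := hAB
      rcases A.eq_empty_or_nonempty with hA | ⟨a, ha⟩
      · -- remove an element of `B`
        subst hA
        rw [Finset.card_empty, zero_add] at hN
        obtain ⟨b, hb⟩ : B.Nonempty := Finset.card_pos.mp (by omega)
        have hcb := Finset.card_erase_of_mem hb
        have hadm : Adm k (∅ : Finset (Fin n)) (B.erase b) := by
          refine ⟨Finset.disjoint_empty_left _, h2, by omega, ?_⟩
          rw [Finset.empty_union]
          exact Finset.card_pos.mp (by omega)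
        have h5 := ih ∅ (B.erase b) hadm (by rw [Finset.card_empty]; omega)
        have h6 := dim_lt (hadmF _ _ hadm) (enc_ssubset (n := n) (Finset.Subset.refl ∅)
          (Finset.erase_subset b B) (by omega))
        omega
      · have hca := Finset.card_erase_of_mem ha
        have hpa : 0 < A.card := Finset.card_pos.mpr ⟨a, ha⟩
        have hadm : Adm k (A.erase a) B := by
          refine ⟨h1.mono_left (Finset.erase_subset _ _), by omega, h3, ?_⟩
          rw [Finset.nonempty_iff_ne_empty]
          intro h5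
          rw [Finset.union_eq_empty] at h5
          have h6 := congrArg Finset.card h5.1
          have h7 := congrArg Finset.card h5.2
          rw [Finset.card_empty] at h6 h7
          omega
        have h5 := ih (A.erase a) B hadm (by omega)
        have h6 := dim_lt (hadmF _ _ hadm) (enc_ssubset (n := n) (Finset.erase_subset a A)
          (Finset.Subset.refl B) (by omega))
        omega
  have hadm : ∀ A B : Finset (Fin n), Adm k A B → dim q (enc A B) + 1 = A.card + B.card := by
    intro A B h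
    have h1 := hlow _ A B h rfl
    have h2 := dim_add_one_le (p := q) (T := enc A B) (by
      rw [← Finset.card_pos, card_enc]
      have h3 := Finset.card_pos.mpr h.2.2.2
      have h4 := Finset.card_union_le A B
      omega)
    rw [card_enc] at h2
    omega
  refine ⟨huniv, ?_, hadm, fun T T' hT _ h => dim_lt hT h⟩
  intro S
  have hS : S.1.card = k := S.2
  have hSc : S.1ᶜ.card = n - k := by rw [Finset.card_compl, hS, Fintype.card_fin]
  have hEF : IsFace q (E S.1) := (hface _).mpr (Or.inr (Or.inr ⟨S, rfl⟩))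
  obtain ⟨y, hy⟩ : S.1.Nonempty := Finset.card_pos.mp (by omega)
  obtain ⟨x, hx⟩ : (S.1ᶜ).Nonempty := Finset.card_pos.mp (by omega)
  have h1 := Finset.card_erase_of_mem hx
  have h2 := Finset.card_erase_of_mem hy
  have h3 : Adm k (S.1ᶜ.erase x) (S.1.erase y) := by
    refine ⟨?_, by omega, by omega, ?_⟩
    · exact (disjoint_compl_left (a := S.1)).mono (Finset.erase_subset _ _)
        (Finset.erase_subset _ _)
    · obtain ⟨z, hz⟩ : (S.1.erase y).Nonempty := Finset.card_pos.mp (by omega)
      exact ⟨z, Finset.mem_union_right _ hz⟩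
  have h4 := hadm _ _ h3
  have h5 : dim q (enc (S.1ᶜ.erase x) (S.1.erase y)) < dim q (E S.1) :=
    dim_lt (hadmF _ _ h3) (enc_ssubset (Finset.erase_subset _ _) (Finset.erase_subset _ _)
      (by omega))
  have h6 : dim q (E S.1) < dim q univ := by
    refine dim_lt hEF ⟨Finset.subset_univ _, fun h7 => ?_⟩
    have h8 := Finset.card_le_card h7
    unfold E at h8
    rw [card_enc, Finset.card_univ, Fintype.card_prod, Fintype.card_fin, Fintype.card_bool] at h8
    omega
  omega

end Pool.Agent.CB
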