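import Pool.Agent.CB.Stm2

/-!
Project CB (helper99), piece DEXN (helper95): existence and uniqueness of the normals, for any polytope.
-/

set_option autoImplicit false

namespace Pool.Agent.CB

open Finset Module

namespace DEXN

theorem mult {κ : Type} [Fintype κ] [DecidableEq κ] (y : κ → ℚ) :
    ∃ m : ℕ, 0 < m ∧ ∀ c, ∃ z : ℤ, (m : ℚ) * y c = z := by
  refine ⟨∏ c, (y c).den, Finset.prod_pos fun c _ => (y c).den_pos, fun c => ?_⟩
  obtain ⟨r, hr⟩ : (y c).den ∣ ∏ c, (y c).den := Finset.dvd_prod_of_mem _ (Finset.mem_univ c)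
  refine ⟨(y c).num * r, ?_⟩
  rw [hr]
  push_cast
  have h := Rat.mul_den_eq_num (y c)
  rw [← h]
  ring

theorem int_sub {d : ℕ} {x y : Fin d → ℚ} (hx : Integral x) (hy : Integral y) : Integral (x - y) := by
  intro c
  obtain ⟨a, ha⟩ := hx c
  obtain ⟨b, hb⟩ := hy c
  exact ⟨a - b, by rw [Pi.sub_apply, ha, hb]; push_cast; rfl⟩

theorem int_smul {d : ℕ} {x : Fin d → ℚ} (z : ℤ) (hx : Integral x) : Integral ((z : ℚ) • x) := by
  intro c
  obtain ⟨a, ha⟩ := hx c
  exact ⟨z * a, by rw [Pi.smul_apply, ha, smul_eq_mul]; push_cast; rfl⟩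

/-- a functional has bounded denominators on the integral vectors -/
theorem bdd {d : ℕ} (f : (Fin d → ℚ) →ₗ[ℚ] ℚ) :
    ∃ D : ℕ, 0 < D ∧ ∀ x, Integral x → ∃ z : ℤ, (D : ℚ) * f x = z := by
  obtain ⟨D, hD, hz⟩ := mult (fun c : Fin d => f fun j => if c = j then 1 else 0)
  refine ⟨D, hD, fun x hx => ?_⟩
  choose a ha using hx
  choose b hb using hz
  refine ⟨∑ c, a c * b c, ?_⟩
  rw [LinearMap.pi_apply_eq_sum_univ f x, Finset.mul_sum]
  push_cast
  refine Finset.sum_congr rfl fun c _ => ?_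
  rw [← ha, ← hb, smul_eq_mul]
  ring

/-- a functional which is positive at some vector of `V` has a positive multiple which maps the integral vectors
of `V` onto the integers -/
theorem scale {d : ℕ} (V : Submodule ℚ (Fin d → ℚ)) (f : (Fin d → ℚ) →ₗ[ℚ] ℚ) (x : Fin d → ℚ)
    (hx : x ∈ V) (hf : 0 < f x) :
    ∃ g : ℚ, 0 < g ∧ (∀ x ∈ V, Integral x → ∃ z : ℤ, g * f x = z) ∧ ∃ x ∈ V, Integral x ∧ g * f x = 1 := by
  obtain ⟨D, hD, hDf⟩ := bdd f
  obtain ⟨m, hm, hmx⟩ := mult x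
  have hD' : (0 : ℚ) < D := by exact_mod_cast hD
  have hm' : (0 : ℚ) < m := by exact_mod_cast hm
  have hex : ∃ n : ℕ, 0 < n ∧ ∃ y ∈ V, Integral y ∧ (D : ℚ) * f y = n := by
    have h1 : Integral ((m : ℚ) • x) := fun c => hmx c
    obtain ⟨z, hz⟩ := hDf _ h1
    have h2 : 0 < (z : ℚ) := by
      rw [← hz, map_smul, smul_eq_mul]
      positivity
    have h3 : 0 < z := by exact_mod_cast h2
    refine ⟨z.toNat, by omega, (m : ℚ) • x, V.smul_mem _ hx, h1, ?_⟩
    rw [hz]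
    have h4 : ((z.toNat : ℤ) : ℚ) = z := by rw [Int.toNat_of_nonneg h3.le]
    rw [← h4]
    rfl
  classical
  obtain ⟨hn0, y0, hy0, hy0i, hy0f⟩ := Nat.find_spec hex
  have hmin := fun k hk => Nat.find_min hex (m := k) hk
  generalize Nat.find hex = n0 at hn0 hy0f hmin
  have hn0' : (0 : ℚ) < n0 := by exact_mod_cast hn0
  refine ⟨D / n0, by positivity, fun y hy hyi => ?_, y0, hy0, hy0i, ?_⟩
  · obtain ⟨z, hz⟩ := hDf y hyi
    refine ⟨z / n0, ?_⟩
    have h1 : (n0 : ℤ) ≠ 0 := by exact_mod_cast hn0.ne'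
    have hr := Int.emod_nonneg z h1
    have hr2 := Int.emod_lt_of_pos z (by exact_mod_cast hn0 : (0 : ℤ) < n0)
    have hzz := Int.emod_add_mul_ediv z n0
    -- the remainder is a value
    have h2 : (D : ℚ) * f (y - ((z / n0 : ℤ) : ℚ) • y0) = ((z % n0 : ℤ) : ℚ) := by
      rw [map_sub, map_smul, smul_eq_mul, mul_sub, hz]
      have h3 : (D : ℚ) * (((z / n0 : ℤ) : ℚ) * f y0) = ((z / n0 : ℤ) : ℚ) * n0 := by
        rw [← hy0f]
        ring
      rw [h3]
      have h4 : ((z % n0 + n0 * (z / n0) : ℤ) : ℚ) = (z : ℚ) := by rw [hzz]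
      push_cast at h4 ⊢
      linarith
    have h5 : z % n0 = 0 := by
      by_contra hne
      have h6 : 0 < z % (n0 : ℤ) := lt_of_le_of_ne hr (Ne.symm hne)
      apply hmin (z % (n0 : ℤ)).toNat (by omega)
      refine ⟨by omega, y - ((z / n0 : ℤ) : ℚ) • y0, V.sub_mem hy (V.smul_mem _ hy0),
        int_sub hyi (int_smul _ hy0i), ?_⟩
      rw [h2]
      have h7 : (((z % (n0 : ℤ)).toNat : ℤ) : ℚ) = ((z % n0 : ℤ) : ℚ) := by
        rw [Int.toNat_of_nonneg h6.le]
      rw [← h7]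
      rfl
    rw [h5, zero_add] at hzz
    have h8 : (n0 : ℚ) * ((z / n0 : ℤ) : ℚ) = z := by exact_mod_cast hzz
    rw [div_mul_eq_mul_div, hz, ← h8]
    field_simp
  · rw [div_mul_eq_mul_div, hy0f]
    exact div_self hn0'.ne'

end DEXN

open DEXN in
theorem t_DEXN : S_DEXN := by
  intro ι _ _ d p F G hF hG hFG hdim
  obtain ⟨⟨j0, hj0⟩, f, hf⟩ := hF
  have hWV : lin p F ≤ lin p G := by
    refine Submodule.span_mono ?_
    rintro x ⟨i, hi, j, hj, rfl⟩
    exact ⟨i, hFG hi, j, hFG hj, rfl⟩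
  have hmem : ∀ i ∈ G, ∀ j ∈ G, p i - p j ∈ lin p G := fun i hi j hj =>
    Submodule.subset_span ⟨i, hi, j, hj, rfl⟩
  have hfW : ∀ x ∈ lin p F, f x = 0 := by
    intro x hx
    induction hx using Submodule.span_induction with
    | mem x hx =>
      obtain ⟨i, hi, j, hj, rfl⟩ := hx
      rw [map_sub]
      have h1 := (hf i).1 hi j
      have h2 := (hf j).1 hj i
      linarith
    | zero => exact map_zero f
    | add x y _ _ hx hy => rw [map_add, hx, hy, add_zero]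
    | smul a x _ hx => rw [map_smul, hx, smul_zero]
  have hfnn : ∀ i, ∀ j ∈ F, 0 ≤ f (p i - p j) := by
    intro i j hj
    rw [map_sub]
    have h1 := (hf j).1 hj i
    linarith
  have hfpos : ∀ i, ∀ j ∈ F, i ∉ F → 0 < f (p i - p j) := by
    intro i j hj hi
    rw [map_sub]
    have h1 : ¬ ∀ j, f (p i) ≤ f (p j) := fun h => hi ((hf i).2 h)
    push Not at h1
    obtain ⟨j', hj'⟩ := h1
    have h2 := (hf j).1 hj j'
    linarith
  obtain ⟨i0, hi0, hi0F⟩ : ∃ i ∈ G, i ∉ F := by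
    by_contra h
    push Not at h
    have h1 : F = G := Finset.Subset.antisymm hFG h
    rw [h1] at hdim
    omega
  -- the kernel of a normal
  have hker : ∀ ν, Normal p F G ν → ∀ x ∈ lin p G, ν x = 0 → x ∈ lin p F := by
    intro ν hν x hx hνx
    by_contra hxW
    obtain ⟨h1, h2, h3, x0, hx0, hx0i, hx01⟩ := hν
    have h4 : lin p F < lin p F ⊔ Submodule.span ℚ {x} := by
      refine lt_of_le_of_ne le_sup_left fun h => hxW ?_
      rw [h]
      exact Submodule.mem_sup_right (Submodule.mem_span_singleton_self x)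
    have h5 := Submodule.finrank_lt_finrank_of_lt h4
    have h6 : lin p F ⊔ Submodule.span ℚ {x} ≤ lin p G :=
      sup_le hWV ((Submodule.span_singleton_le_iff_mem _ _).2 hx)
    have h7 : lin p F ⊔ Submodule.span ℚ {x} = lin p G := by
      refine Submodule.eq_of_le_of_finrank_le h6 ?_
      have h8 : finrank ℚ (lin p F) + 1 = finrank ℚ (lin p G) := hdim
      omega
    rw [← h7] at hx0
    obtain ⟨a, ha, b, hb, hab⟩ := Submodule.mem_sup.1 hx0
    obtain ⟨c, rfl⟩ := Submodule.mem_span_singleton.1 hb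
    rw [← hab, map_add, h1 a ha, map_smul, hνx, smul_zero, add_zero] at hx01
    exact zero_ne_one hx01
  have hpos : ∀ ν, Normal p F G ν → ∀ i ∈ G, ∀ j ∈ F, i ∉ F → 0 < ν (p i - p j) := by
    intro ν hν i hi j hj hiF
    refine lt_of_le_of_ne (hν.2.1 i hi j hj) fun h => ?_
    have h1 := hker ν hν _ (hmem i hi j (hFG hj)) h.symm
    have h2 := hfW _ h1
    have h3 := hfpos i j hj hiF
    linarith
  refine ⟨?_, ?_, hker, hpos⟩
  · obtain ⟨g, hg, hg1, hg2⟩ := scale (lin p G) f (p i0 - p j0) (hmem i0 hi0 j0 (hFG hj0))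
      (hfpos i0 j0 hj0 hi0F)
    refine ⟨g • f, ?_, ?_, ?_, ?_⟩
    · intro x hx
      rw [LinearMap.smul_apply, hfW x hx, smul_zero]
    · intro i _ j hj
      rw [LinearMap.smul_apply, smul_eq_mul]
      exact mul_nonneg hg.le (hfnn i j hj)
    · intro x hx hxi
      obtain ⟨z, hz⟩ := hg1 x hx hxi
      exact ⟨z, by rw [LinearMap.smul_apply, smul_eq_mul, hz]⟩
    · obtain ⟨x, hx, hxi, hx1⟩ := hg2
      exact ⟨x, hx, hxi, by rw [LinearMap.smul_apply, smul_eq_mul, hx1]⟩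
  · -- uniqueness
    have hprop : ∀ ν ν', Normal p F G ν → Normal p F G ν' → ∀ x0 ∈ lin p G, ν x0 = 1 →
        ∀ x ∈ lin p G, ν' x = ν x * ν' x0 := by
      intro ν ν' hν hν' x0 hx0 h1 x hx
      have h2 : x - ν x • x0 ∈ lin p F := by
        refine hker ν hν _ (Submodule.sub_mem _ hx (Submodule.smul_mem _ _ hx0)) ?_
        rw [map_sub, map_smul, h1, smul_eq_mul, mul_one, sub_self]
      have h3 := hν'.1 _ h2
      rw [map_sub, map_smul, smul_eq_mul] at h3
      linarith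
    intro ν ν' hν hν' x hx
    obtain ⟨x0, hx0, hx0i, hx01⟩ := hν.2.2.2
    obtain ⟨x1, hx1, hx1i, hx11⟩ := hν'.2.2.2
    obtain ⟨c, hc⟩ := hν'.2.2.1 x0 hx0 hx0i
    obtain ⟨c', hc'⟩ := hν.2.2.1 x1 hx1 hx1i
    have h1 := hprop ν ν' hν hν' x0 hx0 hx01
    have h2 := hprop ν' ν hν' hν x1 hx1 hx11 x0 hx0
    rw [hx01, hc, hc'] at h2
    have h3 : c * c' = 1 := by exact_mod_cast h2.symm
    have h4 := h1 _ (hmem i0 hi0 j0 (hFG hj0))
    have h5 := hpos ν hν i0 hi0 j0 hj0 hi0F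
    have h6 := hpos ν' hν' i0 hi0 j0 hj0 hi0F
    rw [h4, hc] at h6
    have h7 : (0 : ℚ) < c := (mul_pos_iff_of_pos_left h5).1 h6
    have h8 : 0 < c := by exact_mod_cast h7
    have h9 : c = 1 := Int.eq_one_of_mul_eq_one_right h8.le h3
    rw [h1 x hx, hc, h9, Int.cast_one, mul_one]

end Pool.Agent.CB
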