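import Pool.Agent.CB.Stm2

/-!
# Project CB part 2, piece DFAC (helper55): the faces of the dual of the hypersimplex
-/

set_option autoImplicit false

namespace Pool.Agent.CB

open Finset Module

namespace DFACx

section
variable {n k : ℕ}

theorem mem_enc (A B : Finset (Fin n)) (i : Fin n × Bool) :
    i ∈ enc A B ↔ (i.2 = false ∧ i.1 ∈ A) ∨ (i.2 = true ∧ i.1 ∈ B) := by
  unfold enc
  rw [Finset.mem_filter]
  exact ⟨fun h => h.2, fun h => ⟨Finset.mem_univ _, h⟩⟩

theorem mem_fc (A B : Finset (Fin n)) (S : Sub k n) :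
    S ∈ fc k A B ↔ Disjoint A S.1 ∧ B ⊆ S.1 := by
  unfold fc
  rw [Finset.mem_filter]
  exact ⟨fun h => h.2, fun h => ⟨Finset.mem_univ _, h⟩⟩

/-- the values of a functional -/
theorem f_std (f : (Fin n → ℚ) →ₗ[ℚ] ℚ) (S : Sub k n) :
    f (std k n S) = ∑ m ∈ S.1, f (Pi.single m 1) := by
  have h1 : std k n S = ∑ m ∈ S.1, (Pi.single m (1 : ℚ) : Fin n → ℚ) := by
    funext c
    rw [Finset.sum_apply]
    unfold std
    have h2 : ∀ m ∈ S.1, (Pi.single m (1 : ℚ) : Fin n → ℚ) c = if c = m then 1 else 0 := by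
      intro m _
      rw [Pi.single_apply]
    rw [Finset.sum_congr rfl h2, Finset.sum_ite_eq]
  rw [h1, map_sum]

/-- the sets `fc k A B` are faces -/
theorem isFace_fc (A B : Finset (Fin n)) (hne : (fc k A B).Nonempty) :
    IsFace (std k n) (fc k A B) := by
  refine ⟨hne, (∑ m ∈ A, LinearMap.proj m - ∑ m ∈ B, LinearMap.proj m :
    (Fin n → ℚ) →ₗ[ℚ] ℚ), ?_⟩
  have hf : ∀ S : Sub k n, (∑ m ∈ A, LinearMap.proj m - ∑ m ∈ B, LinearMap.proj m :
      (Fin n → ℚ) →ₗ[ℚ] ℚ) (std k n S) = ((A ∩ S.1).card : ℚ) - ((B ∩ S.1).card : ℚ) := by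
    intro S
    have h1 : ∀ C : Finset (Fin n), (∑ m ∈ C, LinearMap.proj m : (Fin n → ℚ) →ₗ[ℚ] ℚ)
        (std k n S) = ((C ∩ S.1).card : ℚ) := by
      intro C
      rw [LinearMap.sum_apply]
      have h2 : ∀ m ∈ C, (LinearMap.proj m : (Fin n → ℚ) →ₗ[ℚ] ℚ) (std k n S) =
          if m ∈ S.1 then 1 else 0 := fun m _ => rfl
      rw [Finset.sum_congr rfl h2, Finset.sum_boole, Finset.filter_mem_eq_inter]
    rw [LinearMap.sub_apply, h1, h1]
  have h1 : ∀ S : Sub k n, (B ∩ S.1).card ≤ B.card := fun S =>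
    Finset.card_le_card Finset.inter_subset_left
  have h2 : ∀ S : Sub k n, S ∈ fc k A B ↔ (A ∩ S.1).card = 0 ∧ (B ∩ S.1).card = B.card := by
    intro S
    rw [mem_fc, Finset.card_eq_zero, Finset.disjoint_iff_inter_eq_empty]
    constructor
    · rintro ⟨h, h'⟩
      exact ⟨h, by rw [Finset.inter_eq_left.mpr h']⟩
    · rintro ⟨h, h'⟩
      exact ⟨h, Finset.inter_eq_left.mp (Finset.eq_of_subset_of_card_le
        Finset.inter_subset_left h'.ge)⟩
  obtain ⟨S₀, hS₀⟩ := hne
  have h3 := (h2 S₀).mp hS₀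
  intro S
  rw [h2]
  simp only [hf]
  constructor
  · rintro ⟨h4, h5⟩ S'
    rw [h4, h5]
    have h6 : ((B ∩ S'.1).card : ℚ) ≤ B.card := by exact_mod_cast h1 S'
    have h7 : (0 : ℚ) ≤ ((A ∩ S'.1).card : ℚ) := Nat.cast_nonneg _
    push_cast
    linarith
  · intro h4
    have h5 := h4 S₀
    rw [h3.1, h3.2] at h5
    have h6 : (A ∩ S.1).card + B.card ≤ (B ∩ S.1).card := by
      have : ((A ∩ S.1).card : ℚ) + B.card ≤ (B ∩ S.1).card := by
        push_cast at h5
        linarith
      exact_mod_cast this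
    have h7 := h1 S
    omega

theorem fc_ne_univ (hk : 1 ≤ k) (hkn : k + 1 ≤ n) (A B : Finset (Fin n))
    (h : (A ∪ B).Nonempty) : fc k A B ≠ univ := by
  intro h0
  obtain ⟨m, hm⟩ := h
  rw [Finset.mem_union] at hm
  rcases hm with hm | hm
  · obtain ⟨u, hu, -, hc⟩ := Finset.exists_subsuperset_card_eq (s := {m}) (t := univ) (n := k)
      (Finset.subset_univ _) (by rw [Finset.card_singleton]; exact hk)
      (by rw [Finset.card_univ, Fintype.card_fin]; omega)
    have h1 : (⟨u, hc⟩ : Sub k n) ∈ fc k A B := h0 ▸ Finset.mem_univ _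
    rw [mem_fc] at h1
    exact Finset.disjoint_left.mp h1.1 hm (hu (Finset.mem_singleton_self m))
  · obtain ⟨u, -, hu, hc⟩ := Finset.exists_subsuperset_card_eq (s := ∅) (t := univ.erase m)
      (n := k) (Finset.empty_subset _) (by rw [Finset.card_empty]; omega)
      (by rw [Finset.card_erase_of_mem (Finset.mem_univ _), Finset.card_univ,
        Fintype.card_fin]; omega)
    have h1 : (⟨u, hc⟩ : Sub k n) ∈ fc k A B := h0 ▸ Finset.mem_univ _
    rw [mem_fc] at h1
    exact Finset.notMem_erase m univ (hu (h1.2 hm))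

/-- a face which is not contained in a coordinate hyperplane is everything -/
theorem face_univ (F : Finset (Sub k n)) (hF : IsFace (std k n) F)
    (h1 : ∀ m, ∃ S ∈ F, m ∈ S.1) (h2 : ∀ m, ∃ S ∈ F, m ∉ S.1) : F = univ := by
  obtain ⟨⟨S₀, hS₀⟩, f, hf⟩ := hF
  obtain ⟨g, hg⟩ : ∃ g : Fin n → ℚ, g = fun m => f (Pi.single m 1) := ⟨_, rfl⟩
  have hv : ∀ S : Sub k n, f (std k n S) = ∑ m ∈ S.1, g m := by
    intro S
    rw [hg]
    exact f_std f S
  -- exchange
  have hex : ∀ S ∈ F, ∀ x ∈ S.1, ∀ y, y ∉ S.1 → g x ≤ g y := by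
    intro S hS x hx y hy
    have hc : (insert y (S.1.erase x)).card = k := by
      rw [Finset.card_insert_of_notMem (fun h => hy (Finset.mem_of_mem_erase h)),
        Finset.card_erase_of_mem hx, S.2]
      have : 0 < k := by rw [← S.2]; exact Finset.card_pos.mpr ⟨x, hx⟩
      omega
    have h3 := (hf S).mp hS ⟨_, hc⟩
    rw [hv, hv] at h3
    have h4 : ∑ m ∈ insert y (S.1.erase x), g m = g y + ∑ m ∈ S.1.erase x, g m :=
      Finset.sum_insert (fun h => hy (Finset.mem_of_mem_erase h))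
    have h5 : g x + ∑ m ∈ S.1.erase x, g m = ∑ m ∈ S.1, g m := Finset.add_sum_erase _ _ hx
    simp only at h3
    linarith
  -- all values are equal
  have hall : ∀ a b, g a = g b := by
    by_contra hne
    push Not at hne
    obtain ⟨a', b', hab'⟩ := hne
    have : Nonempty (Fin n) := ⟨a'⟩
    obtain ⟨a, ha⟩ := Finite.exists_min g
    obtain ⟨b, hb⟩ := Finite.exists_max g
    have hab : g a < g b := by
      rcases lt_or_gt_of_ne hab' with h | h
      · exact (ha a').trans_lt (h.trans_le (hb b'))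
      · exact (ha b').trans_lt (h.trans_le (hb a'))
    obtain ⟨S, hS, hbS⟩ := h1 b
    obtain ⟨S', hS', haS'⟩ := h2 a
    have h3 : ∀ y ∈ S'.1, g y = g a := fun y hy => le_antisymm (hex S' hS' y hy a haS') (ha y)
    have h4 : ∑ m ∈ S'.1, g m = k * g a := by
      rw [Finset.sum_congr rfl h3, Finset.sum_const, S'.2, nsmul_eq_mul]
    have h5 := (hf S).mp hS S'
    rw [hv, hv, h4] at h5
    have h6 : ∑ m ∈ S.1, g a < ∑ m ∈ S.1, g m :=
      Finset.sum_lt_sum (fun m _ => ha m) ⟨b, hbS, hab⟩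
    rw [Finset.sum_const, S.2, nsmul_eq_mul] at h6
    linarith
  rw [Finset.eq_univ_iff_forall]
  intro S
  rw [hf]
  intro S'
  rw [hv, hv]
  have h3 : ∀ T : Sub k n, ∑ m ∈ T.1, g m = ∑ m ∈ S₀.1, g m := by
    intro T
    rcases Nat.eq_zero_or_pos k with h0 | h0
    · have hT : T.1 = ∅ := Finset.card_eq_zero.mp (T.2.trans h0)
      have hS : S₀.1 = ∅ := Finset.card_eq_zero.mp (S₀.2.trans h0)
      rw [hT, hS]
    · obtain ⟨a, -⟩ : S₀.1.Nonempty := Finset.card_pos.mp (by rw [S₀.2]; exact h0)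
      rw [Finset.sum_congr rfl (fun m _ => hall m a),
        Finset.sum_congr (s₂ := S₀.1) rfl (fun m _ => hall m a), Finset.sum_const,
        Finset.sum_const, T.2, S₀.2]
  rw [h3 S, h3 S']

end

end DFACx

open DFACx in
theorem t_DFAC : S_DFAC := by
  classical
  intro n k hk hkn q hq
  obtain ⟨hlin, hface⟩ := hq
  refine ⟨hk, hkn, hlin, fun T => ?_⟩
  rw [hface T]
  refine or_congr Iff.rfl ?_
  constructor
  · rintro ⟨F, hF, hFu, hT⟩
    obtain ⟨A, hA⟩ : ∃ A : Finset (Fin n), A = univ.filter fun m => ∀ S ∈ F, m ∉ S.1 := ⟨_, rfl⟩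
    obtain ⟨B, hB⟩ : ∃ B : Finset (Fin n), B = univ.filter fun m => ∀ S ∈ F, m ∈ S.1 := ⟨_, rfl⟩
    have hA' : ∀ m, m ∈ A ↔ ∀ S ∈ F, m ∉ S.1 := by intro m; rw [hA]; simp
    have hB' : ∀ m, m ∈ B ↔ ∀ S ∈ F, m ∈ S.1 := by intro m; rw [hB]; simp
    have hTe : T = enc A B := by
      ext ⟨m, b⟩
      rw [hT, Finset.mem_filter, mem_enc, hA', hB']
      unfold Has
      cases b <;> simp
    obtain ⟨S₀, hS₀⟩ := hF.1
    have hS₀c : S₀.1.card = k := S₀.2
    have hBS : B ⊆ S₀.1 := fun m hm => (hB' m).mp hm S₀ hS₀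
    have hAS : A ⊆ S₀.1ᶜ := fun m hm => Finset.mem_compl.mpr ((hA' m).mp hm S₀ hS₀)
    have hBc := Finset.card_le_card hBS
    have hAc := Finset.card_le_card hAS
    have hScc : S₀.1ᶜ.card = n - k := by rw [Finset.card_compl, hS₀c, Fintype.card_fin]
    -- the one point case
    have hone : (∀ S ∈ F, S = S₀) → T = E S₀.1 := by
      intro h
      rw [hTe]
      unfold E
      congr 1
      · ext m
        rw [hA', Finset.mem_compl]
        exact ⟨fun h' => h' S₀ hS₀, fun h' S hS => by rw [h S hS]; exact h'⟩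
      · ext m
        rw [hB']
        exact ⟨fun h' => h' S₀ hS₀, fun h' S hS => by rw [h S hS]; exact h'⟩
    by_cases hBk : B.card = k
    · right
      refine ⟨S₀, hone fun S hS => ?_⟩
      have h1 : B = S₀.1 := Finset.eq_of_subset_of_card_le hBS (by omega)
      have h2 : B ⊆ S.1 := fun m hm => (hB' m).mp hm S hS
      have h3 : B = S.1 := Finset.eq_of_subset_of_card_le h2 (by rw [S.2]; omega)
      exact Subtype.ext (h3.symm.trans h1)
    by_cases hAk : A.card = n - k
    · right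
      refine ⟨S₀, hone fun S hS => ?_⟩
      have h1 : A = S₀.1ᶜ := Finset.eq_of_subset_of_card_le hAS (by omega)
      have h2 : A ⊆ S.1ᶜ := fun m hm => Finset.mem_compl.mpr ((hA' m).mp hm S hS)
      have h3 : A = S.1ᶜ := Finset.eq_of_subset_of_card_le h2 (by
        rw [Finset.card_compl, S.2, Fintype.card_fin]; omega)
      exact Subtype.ext (compl_injective (h3.symm.trans h1))
    left
    refine ⟨A, B, ⟨?_, by omega, by omega, ?_⟩, hTe⟩
    · exact (disjoint_compl_left (a := S₀.1)).mono hAS hBS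
    · by_contra h
      rw [Finset.not_nonempty_iff_eq_empty, Finset.union_eq_empty] at h
      apply hFu
      apply face_univ F hF
      · intro m
        by_contra h1
        push Not at h1
        have : m ∈ A := (hA' m).mpr h1
        rw [h.1] at this
        exact Finset.notMem_empty _ this
      · intro m
        by_contra h1
        push Not at h1
        have : m ∈ B := (hB' m).mpr h1
        rw [h.2] at this
        exact Finset.notMem_empty _ this
  · -- the faces exist
    have hHas : ∀ A B : Finset (Fin n), (∀ m, m ∉ A → ∃ S ∈ fc k A B, m ∈ S.1) →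
        (∀ m, m ∉ B → ∃ S ∈ fc k A B, m ∉ S.1) →
        enc A B = univ.filter fun i => Has (fc k A B) i := by
      intro A B h1 h2
      ext ⟨m, b⟩
      rw [mem_enc, Finset.mem_filter]
      unfold Has
      cases b
      · simp only [Finset.mem_univ, true_and, Bool.false_eq_true, false_and, or_false, iff_false]
        constructor
        · intro hm S hS hmS
          exact Finset.disjoint_left.mp ((mem_fc A B S).mp hS).1 hm hmS
        · intro h
          by_contra hm
          obtain ⟨S, hS, hmS⟩ := h1 m hm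
          exact h S hS hmS
      · simp only [Finset.mem_univ, true_and, Bool.true_eq_false, false_and, false_or, iff_true]
        constructor
        · intro hm S hS
          exact ((mem_fc A B S).mp hS).2 hm
        · intro h
          by_contra hm
          obtain ⟨S, hS, hmS⟩ := h2 m hm
          exact hmS (h S hS)
    rintro (⟨A, B, ⟨hd, hAk, hBk, hne⟩, rfl⟩ | ⟨S, rfl⟩)
    · have hAc : Aᶜ.card = n - A.card := by rw [Finset.card_compl, Fintype.card_fin]
      have hBA : B ⊆ Aᶜ := fun m hm => Finset.mem_compl.mpr fun h => Finset.disjoint_left.mp hd h hm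
      have hex : ∀ C D : Finset (Fin n), B ⊆ C → C ⊆ D → D ⊆ Aᶜ → C.card ≤ k → k ≤ D.card →
          ∃ S ∈ fc k A B, C ⊆ S.1 ∧ S.1 ⊆ D := by
        intro C D h1 h2 h3 h4 h5
        obtain ⟨u, hu1, hu2, hc⟩ := Finset.exists_subsuperset_card_eq h2 h4 h5
        refine ⟨⟨u, hc⟩, (mem_fc A B _).mpr ⟨?_, h1.trans hu1⟩, hu1, hu2⟩
        rw [Finset.disjoint_left]
        intro m hm hmu
        exact Finset.mem_compl.mp (h3 (hu2 hmu)) hm
      obtain ⟨S, hS, -, -⟩ := hex B Aᶜ (Finset.Subset.refl _) hBA (Finset.Subset.refl _)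
        (by omega) (by omega)
      refine ⟨fc k A B, isFace_fc A B ⟨S, hS⟩, fc_ne_univ (by omega) (by omega) A B hne,
        hHas A B ?_ ?_⟩
      · intro m hm
        obtain ⟨S, hS, h1, -⟩ := hex (insert m B) Aᶜ (Finset.subset_insert _ _)
          (Finset.insert_subset (Finset.mem_compl.mpr hm) hBA) (Finset.Subset.refl _)
          ((Finset.card_insert_le _ _).trans (by omega)) (by omega)
        exact ⟨S, hS, h1 (Finset.mem_insert_self _ _)⟩
      · intro m hm
        have h1 : Aᶜ.card - 1 ≤ (Aᶜ.erase m).card := Finset.pred_card_le_card_erase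
        obtain ⟨S, hS, -, h2⟩ := hex B (Aᶜ.erase m) (Finset.Subset.refl _)
          (fun x hx => Finset.mem_erase.mpr ⟨fun h => hm (h ▸ hx), hBA hx⟩)
          (Finset.erase_subset _ _) (by omega) (by omega)
        exact ⟨S, hS, fun h => Finset.notMem_erase m _ (h2 h)⟩
    · have hS : S.1.card = k := S.2
      have hmem : S ∈ fc k S.1ᶜ S.1 :=
        (mem_fc _ _ _).mpr ⟨disjoint_compl_left, Finset.Subset.refl _⟩
      refine ⟨fc k S.1ᶜ S.1, isFace_fc _ _ ⟨S, hmem⟩, fc_ne_univ (by omega) (by omega) _ _ ?_,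
        hHas _ _ ?_ ?_⟩
      · obtain ⟨y, hy⟩ : S.1.Nonempty := Finset.card_pos.mp (by omega)
        exact ⟨y, Finset.mem_union_right _ hy⟩
      · intro m hm
        exact ⟨S, hmem, by rwa [Finset.mem_compl, not_not] at hm⟩
      · intro m hm
        exact ⟨S, hmem, hm⟩

end Pool.Agent.CB
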