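import Pool.Agent.CB.Stm2

/-!
# Piece D-VOL (helper58): lattice volumes
-/

set_option autoImplicit false

namespace Pool.Agent.CB

open Finset Module

namespace DVOL

variable {ι : Type} {d : ℕ}

/-- the group of the integral vectors -/
def IV (d : ℕ) : AddSubgroup (Fin d → ℚ) where
  carrier := {x | Integral x}
  zero_mem' c := ⟨0, by simp⟩
  add_mem' {x y} hx hy c := by
    obtain ⟨a, ha⟩ := hx c
    obtain ⟨b, hb⟩ := hy c
    exact ⟨a + b, by rw [Pi.add_apply, ha, hb, Int.cast_add]⟩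
  neg_mem' {x} hx c := by
    obtain ⟨a, ha⟩ := hx c
    exact ⟨-a, by rw [Pi.neg_apply, ha, Int.cast_neg]⟩

/-- the lattice of a face -/
def LL (p : ι → Fin d → ℚ) (T : Finset ι) : AddSubgroup (Fin d → ℚ) :=
  (lin p T).toAddSubgroup ⊓ IV d

theorem mem_LL (p : ι → Fin d → ℚ) (T : Finset ι) (x : Fin d → ℚ) :
    x ∈ LL p T ↔ x ∈ lin p T ∧ Integral x := Iff.rfl

/-- the sublattice of the vertices -/
def La (N : ℕ) (p : ι → Fin d → ℚ) (T : Finset ι) : AddSubgroup (Fin d → ℚ) :=
  AddSubgroup.closure {x | ∃ i ∈ T, ∃ j ∈ T, x = (N : ℚ) • (p i - p j)}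

theorem la_mem (N : ℕ) (p : ι → Fin d → ℚ) (T : Finset ι) {i j : ι} (hi : i ∈ T) (hj : j ∈ T) :
    (N : ℚ) • (p i - p j) ∈ La N p T := AddSubgroup.subset_closure ⟨i, hi, j, hj, rfl⟩

theorem lin_mem (p : ι → Fin d → ℚ) (T : Finset ι) {i j : ι} (hi : i ∈ T) (hj : j ∈ T) :
    p i - p j ∈ lin p T := Submodule.subset_span ⟨i, hi, j, hj, rfl⟩

theorem la_le (N : ℕ) (p : ι → Fin d → ℚ) (hN : ∀ i, Integral ((N : ℚ) • p i)) (T : Finset ι) :
    La N p T ≤ LL p T := by
  unfold La
  rw [AddSubgroup.closure_le]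
  rintro x ⟨i, hi, j, hj, rfl⟩
  refine ⟨(lin p T).smul_mem _ (lin_mem p T hi hj), ?_⟩
  rw [smul_sub]
  exact (IV d).sub_mem (hN i) (hN j)

theorem la_mono (N : ℕ) (p : ι → Fin d → ℚ) {T T' : Finset ι} (h : T ⊆ T') :
    La N p T ≤ La N p T' := by
  apply AddSubgroup.closure_mono
  rintro x ⟨i, hi, j, hj, rfl⟩
  exact ⟨i, h hi, j, h hj, rfl⟩

theorem lin_mono (p : ι → Fin d → ℚ) {T T' : Finset ι} (h : T ⊆ T') : lin p T ≤ lin p T' := by
  apply Submodule.span_mono
  rintro x ⟨i, hi, j, hj, rfl⟩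
  exact ⟨i, h hi, j, h hj, rfl⟩

theorem la_insert [DecidableEq ι] (N : ℕ) (p : ι → Fin d → ℚ) (F : Finset ι) (i j₀ : ι)
    (hj₀ : j₀ ∈ F) : La N p (insert i F) =
      La N p F ⊔ AddSubgroup.zmultiples ((N : ℚ) • (p i - p j₀)) := by
  apply le_antisymm
  · unfold La
    rw [AddSubgroup.closure_le]
    have key : ∀ a ∈ insert i F, (N : ℚ) • (p a - p j₀) ∈ La N p F ⊔
        AddSubgroup.zmultiples ((N : ℚ) • (p i - p j₀)) := by
      intro a ha
      rcases Finset.mem_insert.1 ha with rfl | ha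
      · exact AddSubgroup.mem_sup_right (AddSubgroup.mem_zmultiples _)
      · exact AddSubgroup.mem_sup_left (la_mem N p F ha hj₀)
    rintro x ⟨a, ha, b, hb, rfl⟩
    have h1 : (N : ℚ) • (p a - p b) = (N : ℚ) • (p a - p j₀) - (N : ℚ) • (p b - p j₀) := by
      rw [← smul_sub, sub_sub_sub_cancel_right]
    rw [h1]
    exact AddSubgroup.sub_mem _ (key a ha) (key b hb)
  · refine sup_le (la_mono N p (Finset.subset_insert _ _)) ?_
    rw [AddSubgroup.zmultiples_le]
    exact la_mem N p _ (Finset.mem_insert_self _ _) (Finset.mem_insert_of_mem hj₀)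

/-- a common denominator -/
theorem exists_den [Fintype ι] (p : ι → Fin d → ℚ) :
    ∃ N : ℕ, 0 < N ∧ ∀ i, Integral ((N : ℚ) • p i) := by
  refine ⟨∏ i, ∏ c, (p i c).den, Finset.prod_pos fun i _ => Finset.prod_pos fun c _ =>
    (p i c).den_pos, fun i c => ?_⟩
  obtain ⟨k, hk⟩ : (p i c).den ∣ ∏ i, ∏ c, (p i c).den :=
    (Finset.dvd_prod_of_mem (fun c => (p i c).den) (Finset.mem_univ c)).trans
      (Finset.dvd_prod_of_mem (fun i => ∏ c, (p i c).den) (Finset.mem_univ i))
  refine ⟨k * (p i c).num, ?_⟩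
  rw [Pi.smul_apply, hk, smul_eq_mul]
  push_cast
  have h1 : ((p i c).den : ℚ) * p i c = (p i c).num := Rat.den_mul_eq_num _
  calc ((p i c).den : ℚ) * k * p i c = k * (((p i c).den : ℚ) * p i c) := by ring
    _ = k * (p i c).num := by rw [h1]

/-- every vector of the linear space has a multiple in the sublattice -/
theorem torsion (N : ℕ) (hN0 : 0 < N) (p : ι → Fin d → ℚ) (T : Finset ι) (x : Fin d → ℚ)
    (hx : x ∈ lin p T) : ∃ m : ℕ, 0 < m ∧ m • x ∈ La N p T := by
  unfold lin at hx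
  induction hx using Submodule.span_induction with
  | mem x h =>
    obtain ⟨i, hi, j, hj, rfl⟩ := h
    refine ⟨N, hN0, ?_⟩
    rw [← Nat.cast_smul_eq_nsmul ℚ]
    exact la_mem N p T hi hj
  | zero => exact ⟨1, one_pos, by rw [smul_zero]; exact AddSubgroup.zero_mem _⟩
  | add x y _ _ hx hy =>
    obtain ⟨m, hm, hmx⟩ := hx
    obtain ⟨n, hn, hny⟩ := hy
    refine ⟨n * m, Nat.mul_pos hn hm, ?_⟩
    rw [smul_add]
    refine AddSubgroup.add_mem _ ?_ ?_
    · rw [mul_smul]
      exact AddSubgroup.nsmul_mem _ hmx n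
    · rw [mul_comm, mul_smul]
      exact AddSubgroup.nsmul_mem _ hny m
  | smul q x _ hx =>
    obtain ⟨m, hm, hmx⟩ := hx
    refine ⟨q.den * m, Nat.mul_pos q.den_pos hm, ?_⟩
    have h1 : (q.den * m) • (q • x) = q.num • (m • x) := by
      rw [← Nat.cast_smul_eq_nsmul ℚ, ← Int.cast_smul_eq_zsmul ℚ, ← Nat.cast_smul_eq_nsmul ℚ,
        smul_smul, smul_smul]
      congr 1
      push_cast
      have h2 : (q.den : ℚ) * q = q.num := Rat.den_mul_eq_num _
      calc (q.den : ℚ) * m * q = ((q.den : ℚ) * q) * m := by ring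
        _ = q.num * m := by rw [h2]
    rw [h1]
    exact AddSubgroup.zsmul_mem _ hmx _

/-- the inclusion of the integral vectors -/
def inc (d : ℕ) : (Fin d → ℤ) →ₗ[ℤ] (Fin d → ℚ) where
  toFun x c := (x c : ℚ)
  map_add' x y := by funext c; simp
  map_smul' a x := by funext c; simp

theorem index_ne_zero (N : ℕ) (hN0 : 0 < N) (p : ι → Fin d → ℚ) (T : Finset ι) :
    (La N p T).relIndex (LL p T) ≠ 0 := by
  have h1 : (AddSubgroup.toIntSubmodule (LL p T)) ≤ LinearMap.range (inc d) := by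
    intro x hx
    have hx2 : Integral x := ((mem_LL p T x).1 hx).2
    choose z hz using hx2
    exact ⟨z, funext fun c => (hz c).symm⟩
  have h2 : IsNoetherian ℤ (AddSubgroup.toIntSubmodule (LL p T)) := isNoetherian_of_le h1
  have h3 : Module.Finite ℤ (LL p T) := by
    have h4 : Module.Finite ℤ (AddSubgroup.toIntSubmodule (LL p T)) := inferInstance
    exact h4
  have h5 : AddGroup.FG (LL p T) := Module.Finite.iff_addGroup_fg.1 h3
  have h6 : Finite ((LL p T) ⧸ (La N p T).addSubgroupOf (LL p T)) := by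
    have h7 : AddGroup.FG ((LL p T) ⧸ (La N p T).addSubgroupOf (LL p T)) :=
      AddGroup.fg_of_surjective (f := QuotientAddGroup.mk' _)
        (QuotientAddGroup.mk'_surjective _)
    refine AddCommGroup.finite_of_fg_isAddTorsion _ ?_
    intro y
    obtain ⟨x, rfl⟩ := QuotientAddGroup.mk'_surjective _ y
    obtain ⟨m, hm, hmx⟩ := torsion N hN0 p T x.1 ((mem_LL p T x.1).1 x.2).1
    rw [isOfFinAddOrder_iff_nsmul_eq_zero]
    refine ⟨m, hm, ?_⟩
    rw [← map_nsmul]
    rw [QuotientAddGroup.mk'_apply, QuotientAddGroup.eq_zero_iff, AddSubgroup.mem_addSubgroupOf]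
    exact hmx
  exact AddSubgroup.index_ne_zero_of_finite

/-- the index in the integers inside of the rational numbers -/
theorem index_int (m : ℕ) : (AddSubgroup.zmultiples (m : ℚ)).relIndex
    (AddSubgroup.zmultiples (1 : ℚ)) = m := by
  have h1 : AddSubgroup.zmultiples (1 : ℚ) = AddSubgroup.map (Int.castAddHom ℚ) ⊤ := by
    ext x
    rw [AddSubgroup.mem_zmultiples_iff, AddSubgroup.mem_map]
    constructor
    · rintro ⟨k, rfl⟩
      exact ⟨k, AddSubgroup.mem_top _, by simp⟩
    · rintro ⟨k, -, rfl⟩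
      exact ⟨k, by simp⟩
  rw [h1, ← AddSubgroup.relIndex_comap, AddSubgroup.relIndex_top_right]
  have h2 : AddSubgroup.comap (Int.castAddHom ℚ) (AddSubgroup.zmultiples (m : ℚ)) =
      AddSubgroup.zmultiples (m : ℤ) := by
    ext x
    rw [AddSubgroup.mem_comap, AddSubgroup.mem_zmultiples_iff, AddSubgroup.mem_zmultiples_iff]
    constructor
    · rintro ⟨k, hk⟩
      refine ⟨k, ?_⟩
      change k • (m : ℚ) = (x : ℚ) at hk
      rw [zsmul_eq_mul] at hk
      rw [smul_eq_mul]
      exact_mod_cast hk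
    · rintro ⟨k, rfl⟩
      refine ⟨k, ?_⟩
      rw [zsmul_eq_mul, Int.coe_castAddHom, smul_eq_mul]
      push_cast
      rfl
  rw [h2, Int.index_zmultiples]
  rfl

theorem step [DecidableEq ι] (N : ℕ) (hN0 : 0 < N) (p : ι → Fin d → ℚ)
    (hN : ∀ i, Integral ((N : ℚ) • p i)) (F : Finset ι) (i : ι)
    (hd1 : dim p F + 1 = F.card) (hd2 : dim p (insert i F) + 1 = (insert i F).card)
    (hiF : i ∉ F) (ν : (Fin d → ℚ) →ₗ[ℚ] ℚ) (hν : Normal p F (insert i F) ν)
    (hker : ∀ x ∈ lin p (insert i F), ν x = 0 → x ∈ lin p F) (j : ι) (hj : j ∈ F) :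
    ((La N p (insert i F)).relIndex (LL p (insert i F)) : ℚ) =
      ((La N p F).relIndex (LL p F) : ℚ) * (N * ν (p i - p j)) := by
  have hNQ : (0 : ℚ) < N := by exact_mod_cast hN0
  have hiG : i ∈ insert i F := Finset.mem_insert_self _ _
  have hjG : j ∈ insert i F := Finset.mem_insert_of_mem hj
  obtain ⟨hν1, hν2, hν3, v, hv, hvI, hv1⟩ := hν
  -- the height
  have hpos : 0 < ν (p i - p j) := by
    refine lt_of_le_of_ne (hν2 i hiG j hj) fun h0 => ?_
    have h1 := hker _ (lin_mem p _ hiG hjG) h0.symm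
    have h2 : lin p (insert i F) ≤ lin p F := by
      unfold lin
      rw [Submodule.span_le]
      have key : ∀ a ∈ insert i F, p a - p j ∈ lin p F := by
        intro a ha
        rcases Finset.mem_insert.1 ha with rfl | ha
        · exact h1
        · exact lin_mem p F ha hj
      rintro x ⟨a, ha, b, hb, rfl⟩
      have h3 : p a - p b = (p a - p j) - (p b - p j) := by rw [sub_sub_sub_cancel_right]
      rw [h3]
      exact Submodule.sub_mem _ (key a ha) (key b hb)
    have h3 : lin p (insert i F) = lin p F := le_antisymm h2 (lin_mono p (Finset.subset_insert _ _))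
    have h4 : dim p (insert i F) = dim p F := by unfold dim; rw [h3]
    rw [Finset.card_insert_of_notMem hiF] at hd2
    omega
  have hinLL : (N : ℚ) • (p i - p j) ∈ LL p (insert i F) :=
    la_le N p hN _ (la_mem N p _ hiG hjG)
  obtain ⟨h, hh⟩ : ∃ h : ℕ, (h : ℚ) = N * ν (p i - p j) := by
    obtain ⟨z, hz⟩ := hν3 _ hinLL.1 hinLL.2
    rw [map_smul, smul_eq_mul] at hz
    have hz0 : (0 : ℚ) < z := by rw [← hz]; positivity
    have hz1 : 0 < z := by exact_mod_cast hz0
    refine ⟨z.toNat, ?_⟩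
    rw [hz]
    exact_mod_cast Int.toNat_of_nonneg hz1.le
  rw [← hh]
  have hh0 : (h : ℚ) ≠ 0 := by rw [hh]; positivity
  -- the subgroups
  have hFG : LL p F ≤ LL p (insert i F) := by
    intro x hx
    exact ⟨lin_mono p (Finset.subset_insert _ _) hx.1, hx.2⟩
  have e1 : La N p (insert i F) ⊓ LL p F = La N p F := by
    apply le_antisymm
    · rintro x ⟨hx1, hx2⟩
      rw [la_insert N p F i j hj] at hx1
      obtain ⟨y, hy, z, hz, rfl⟩ := AddSubgroup.mem_sup.1 hx1
      obtain ⟨m, rfl⟩ := AddSubgroup.mem_zmultiples_iff.1 hz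
      have h1 : ν (y + m • ((N : ℚ) • (p i - p j))) = 0 := hν1 _ hx2.1
      rw [map_add, hν1 y (la_le N p hN F hy).1, zero_add, map_zsmul, map_smul, smul_eq_mul,
        ← hh, zsmul_eq_mul] at h1
      have h2 : m = 0 := by
        rcases mul_eq_zero.1 h1 with h3 | h3
        · exact_mod_cast h3
        · exact absurd h3 hh0
      rw [h2, zero_smul, add_zero]
      exact hy
    · exact le_inf (la_mono N p (Finset.subset_insert _ _)) (la_le N p hN F)
  have e2 : (La N p (insert i F) ⊔ LL p F) = AddSubgroup.comap ν.toAddMonoidHom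
      (AddSubgroup.zmultiples (h : ℚ)) ⊓ LL p (insert i F) := by
    apply le_antisymm
    · refine sup_le (le_inf ?_ (la_le N p hN _)) (le_inf ?_ hFG)
      · rw [la_insert N p F i j hj]
        refine sup_le ?_ ?_
        · intro y hy
          rw [AddSubgroup.mem_comap]
          have h1 : ν y = 0 := hν1 y (la_le N p hN F hy).1
          change ν y ∈ _
          rw [h1]
          exact AddSubgroup.zero_mem _
        · rw [AddSubgroup.zmultiples_le, AddSubgroup.mem_comap]
          change ν ((N : ℚ) • (p i - p j)) ∈ _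
          rw [map_smul, smul_eq_mul, ← hh]
          exact AddSubgroup.mem_zmultiples _
      · intro y hy
        rw [AddSubgroup.mem_comap]
        have h1 : ν y = 0 := hν1 y hy.1
        change ν y ∈ _
        rw [h1]
        exact AddSubgroup.zero_mem _
    · rintro x ⟨hx1, hx2⟩
      have hx1' : ν x ∈ AddSubgroup.zmultiples (h : ℚ) := hx1
      obtain ⟨m, hm⟩ := AddSubgroup.mem_zmultiples_iff.1 hx1'
      change m • (h : ℚ) = ν x at hm
      have h1 : x = m • ((N : ℚ) • (p i - p j)) + (x - m • ((N : ℚ) • (p i - p j))) := by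
        rw [add_sub_cancel]
      have h2 : m • ((N : ℚ) • (p i - p j)) ∈ La N p (insert i F) :=
        AddSubgroup.zsmul_mem _ (la_mem N p _ hiG hjG) m
      rw [h1]
      refine AddSubgroup.add_mem _ (AddSubgroup.mem_sup_left h2) (AddSubgroup.mem_sup_right ?_)
      have h3 : x - m • ((N : ℚ) • (p i - p j)) ∈ LL p (insert i F) :=
        AddSubgroup.sub_mem _ hx2 (la_le N p hN _ h2)
      refine ⟨hker _ h3.1 ?_, h3.2⟩
      rw [map_sub, map_zsmul, map_smul, smul_eq_mul, ← hh, ← hm, sub_self]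
  have e3 : AddSubgroup.map ν.toAddMonoidHom (LL p (insert i F)) =
      AddSubgroup.zmultiples (1 : ℚ) := by
    ext y
    rw [AddSubgroup.mem_map, AddSubgroup.mem_zmultiples_iff]
    constructor
    · rintro ⟨x, hx, rfl⟩
      obtain ⟨z, hz⟩ := hν3 x hx.1 hx.2
      refine ⟨z, ?_⟩
      change z • (1 : ℚ) = ν x
      rw [hz]
      simp
    · rintro ⟨k, rfl⟩
      have hvL : v ∈ LL p (insert i F) := ⟨hv, hvI⟩
      refine ⟨k • v, AddSubgroup.zsmul_mem _ hvL k, ?_⟩
      change ν (k • v) = _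
      rw [map_zsmul, hv1]
  have i1 : (La N p (insert i F)).relIndex (La N p (insert i F) ⊔ LL p F) =
      (La N p F).relIndex (LL p F) := by
    rw [AddSubgroup.relIndex_sup_left, ← AddSubgroup.inf_relIndex_right, e1]
  have i2 : (La N p (insert i F) ⊔ LL p F).relIndex (LL p (insert i F)) = h := by
    rw [e2, AddSubgroup.inf_relIndex_right, AddSubgroup.relIndex_comap, e3, index_int]
  have i3 := AddSubgroup.relIndex_mul_relIndex (La N p (insert i F))
    (La N p (insert i F) ⊔ LL p F) (LL p (insert i F)) le_sup_left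
    (sup_le (la_le N p hN _) hFG)
  rw [i1, i2] at i3
  rw [← i3]
  push_cast
  rfl

end DVOL

open DVOL in
theorem t_DVOL : S_DVOL := by
  intro ι _ _ d p
  obtain ⟨N, hN0, hN⟩ := exists_den p
  refine ⟨N, fun T => ((La N p T).relIndex (LL p T) : ℚ), by exact_mod_cast hN0, ?_, ?_⟩
  · intro T _ _
    have h1 := index_ne_zero N hN0 p T
    have h2 : 0 < (La N p T).relIndex (LL p T) := Nat.pos_of_ne_zero h1
    beta_reduce
    exact_mod_cast h2
  · intro F i _ hiF hd1 hd2 ν hν hker j hj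
    exact step N hN0 p hN F i hd1 hd2 hiF ν hν hker j hj

end Pool.Agent.CB
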