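import Pool.Agent.CB.Stm2

set_option autoImplicit false

namespace Pool.Agent.CB

open Finset Module

theorem t_DWTS : S_DWTS := by
  intro ι _ _ d p j
  classical
  let Φ : (FaceOf p j → ℚ) ≃ₗ[ℚ] Module.Dual ℚ (FaceOf p j →₀ ℚ) := Finsupp.llift ℚ ℚ ℚ (FaceOf p j)
  have hΦ : ∀ w r, Φ w r = r.sum (fun F a => a * w F) := fun w r => by
    simp only [Φ, Finsupp.llift_apply, smul_eq_mul, Finsupp.lift_apply]
  refine ⟨(Submodule.span ℚ {r : FaceOf p j →₀ ℚ | IsRelation p j r}).dualAnnihilator.comap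
    (Φ : (FaceOf p j → ℚ) →ₗ[ℚ] Module.Dual ℚ (FaceOf p j →₀ ℚ)), ?_, ?_⟩
  · intro w
    rw [Submodule.mem_comap, Submodule.mem_dualAnnihilator]
    constructor
    · intro h r hr
      rw [← hΦ]
      exact h r (Submodule.subset_span hr)
    · intro h r hr
      have h1 : Submodule.span ℚ {r : FaceOf p j →₀ ℚ | IsRelation p j r} ≤
          LinearMap.ker (Φ w) := by
        rw [Submodule.span_le]
        intro r hr
        rw [SetLike.mem_coe, LinearMap.mem_ker, hΦ]
        exact h r hr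
      exact LinearMap.mem_ker.1 (h1 hr)
  · unfold chowBetti
    rw [← Subspace.dual_finrank_eq]
    exact (LinearEquiv.finrank_eq (Submodule.dualQuotEquivDualAnnihilator _)).trans
      (LinearEquiv.finrank_eq (Φ.ofSubmodule' _)).symm

end Pool.Agent.CB
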